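import Pool.Agent.ZPK.StmtsL
import Pool.Agent.Helper51_ZP3.Near

/-!
Squad ZPK (MP_6e1a06_nt): row GTI, a pair in equal states and a radial pair at infinity.
-/

set_option autoImplicit false

namespace Pool.Agent.ZPK.H51

open Polynomial Pool.Agent.ZPT Pool.Agent.ZP3 Pool.Agent.ZP3.H51

/-- The polynomial `X ^ p - X` modulo `p`. -/
theorem prod_zmod {p : ℕ} (hp : p.Prime) [Fact p.Prime] :
    (∏ a : ZMod p, (X - C a) : (ZMod p)[X]) = X ^ p - X := by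
  have h1 : (X ^ p - X : (ZMod p)[X]).Monic := by
    apply Polynomial.monic_X_pow_sub
    rw [Polynomial.degree_X]
    exact_mod_cast hp.one_lt
  have h2 : (X ^ p - X : (ZMod p)[X]).roots = Finset.univ.val := by
    have := FiniteField.roots_X_pow_card_sub_X (ZMod p)
    rwa [ZMod.card] at this
  have h3 := Polynomial.prod_multiset_X_sub_C_of_monic_of_roots_card_eq h1 (by
    rw [h2, Finset.card_val, Finset.card_univ, ZMod.card,
      FiniteField.X_pow_card_sub_X_natDegree_eq _ hp.one_lt])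
  rw [h2] at h3
  exact h3

/-- An integral element not congruent to an integer is not fixed by Frobenius. -/
theorem frob_one {K : Type} [NormedField K] [CharZero K] [IsUltrametricDist K] {p : ℕ}
    (hp : p.Prime) (hE : Ext p K) {x : K} (hx : ‖x‖ ≤ 1) (h : ∀ m : ℤ, ‖x - m‖ = 1) :
    ‖x - x ^ p‖ = 1 := by
  have : Fact p.Prime := ⟨hp⟩
  set F : ℤ[X] := X ^ p - X - ∏ a : ZMod p, (X - C ((a.val : ℕ) : ℤ)) with hF
  have h0 : F.map (Int.castRingHom (ZMod p)) = 0 := by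
    rw [hF, Polynomial.map_sub, Polynomial.map_prod, Polynomial.map_sub, Polynomial.map_pow,
      Polynomial.map_X]
    have : ∏ a : ZMod p, Polynomial.map (Int.castRingHom (ZMod p)) (X - C ((a.val : ℕ) : ℤ)) =
        ∏ a : ZMod p, (X - C a) := by
      refine Finset.prod_congr rfl fun a _ => ?_
      rw [Polynomial.map_sub, Polynomial.map_X, Polynomial.map_C]
      simp
    rw [this, prod_zmod hp, sub_self]
  have hpos : (0 : ℝ) < (p : ℝ)⁻¹ := inv_pos.mpr (by exact_mod_cast hp.pos)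
  have h1 : ‖aeval x F‖ ≤ (p : ℝ)⁻¹ := by
    rw [Polynomial.aeval_eq_sum_range]
    refine IsUltrametricDist.norm_sum_le_of_forall_le_of_nonneg hpos.le fun i _ => ?_
    have hc : (p : ℤ) ∣ F.coeff i := by
      rw [← ZMod.intCast_zmod_eq_zero_iff_dvd]
      have := congrArg (fun q => q.coeff i) h0
      simpa [Polynomial.coeff_map] using this
    obtain ⟨c, hc⟩ := hc
    rw [hc, zsmul_eq_mul, Int.cast_mul, Int.cast_natCast, norm_mul, norm_mul, norm_pow,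
      norm_p hp hE]
    have e1 : ‖(c : K)‖ ≤ 1 := IsUltrametricDist.norm_intCast_le_one K c
    have e2 : ‖x‖ ^ i ≤ 1 := pow_le_one₀ (norm_nonneg x) hx
    have e3 : (p : ℝ)⁻¹ * ‖(c : K)‖ ≤ (p : ℝ)⁻¹ := mul_le_of_le_one_right hpos.le e1
    exact (mul_le_of_le_one_right (by positivity) e2).trans e3
  have h2 : aeval x F = x ^ p - x - ∏ a : ZMod p, (x - (((a.val : ℕ) : ℤ) : K)) := by
    rw [hF, map_sub, map_sub, map_pow, aeval_X, map_prod]
    congr 1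
    refine Finset.prod_congr rfl fun a _ => ?_
    rw [map_sub, aeval_X, aeval_C]
    simp
  have h3 : ‖∏ a : ZMod p, (x - (((a.val : ℕ) : ℤ) : K))‖ = 1 := by
    rw [norm_prod]
    exact Finset.prod_eq_one fun a _ => h _
  rw [norm_sub_rev]
  refine norm_one_of_near h3 ?_
  rw [← h2]
  refine h1.trans_lt (inv_lt_one_of_one_lt₀ ?_)
  exact_mod_cast hp.one_lt

/-- GTI. -/
theorem gti (hU : URRStmt) (hT : THBStmt) (_hW : WWNStmt) (hLGB : LgbStmt) (hGPS : GpsStmt)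
    (hGTP : GtpStmt) : GtiStmt := by
  intro p hp hp11 K _ _ _ hE Log hLog z l₁ l₂ l₃ h a h₄ ζ Qv Qu A B ρ hρ hz hz1 u1 u2 u3 h12 uh ua
    uh4 hζ H1 H2 H3 hA hB hQ H5
  obtain ⟨-, T2, T3, T4, -⟩ := hT p hp (by omega)
  obtain ⟨θ, hθ⟩ : ∃ θ : ℝ, θ = th p := ⟨_, rfl⟩
  rw [← hθ] at hρ hz T2 T3 T4
  have ρ3 : ρ < θ ^ 3 := hρ.trans_le (pow_le_pow_of_le_one T2.le T3.le (by omega))
  have ρ2 : ρ < θ ^ 2 := hρ.trans_le (pow_le_pow_of_le_one T2.le T3.le (by omega))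
  have ρ1 : ρ < θ := by
    have := hρ.trans_le (pow_le_pow_of_le_one T2.le T3.le (show 1 ≤ 6 by omega))
    rwa [pow_one] at this
  have ρ0 : ρ < 1 := ρ1.trans T3
  have p2 : (p : ℝ)⁻¹ < θ ^ 2 := T4.trans_le (pow_le_pow_of_le_one T2.le T3.le (by omega))
  obtain ⟨k, ξ, d, hξ, hd, heq, -, hzp⟩ := hGTP p hp (by omega) K hE z l₁ l₂ h ζ ρ
    (by rw [← hθ]; exact ρ3) (by rw [← hθ]; exact hz) hz1 u1 u2 h12 uh hζ H1
  obtain ⟨⟨-, G2⟩, G3, -, G5, -, G7, -⟩ := hLGB p hp (by omega) K hE Log hLog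
  have npK : ‖(p : K)‖ = (p : ℝ)⁻¹ := norm_p hp hE
  have hpos : (0 : ℝ) < (p : ℝ)⁻¹ := inv_pos.mpr (by exact_mod_cast hp.pos)
  have hpK : (p : K) ≠ 0 := by
    intro h0
    rw [h0, norm_zero] at npK
    exact hpos.ne npK
  have hz0 : z ≠ 0 := by
    intro h0
    rw [h0, norm_zero] at hz
    exact absurd hz (not_le.mpr T2)
  have nz0 : 0 < ‖z‖ := norm_pos_iff.mpr hz0
  have n1 : ∀ l : K, ‖l‖ ≤ 1 → ‖1 + l * z‖ = 1 := by
    intro l hl
    refine norm_one_of_near (y := 1) norm_one ?_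
    rw [add_sub_cancel_left, norm_mul]
    exact (mul_le_of_le_one_left nz0.le hl).trans_lt hz1
  have na := ua.2
  have nh4 := uh4.2
  have na3 : ‖a * (1 + l₃ * z)‖ = 1 := by rw [norm_mul, na, n1 l₃ u3.1, one_mul]
  have N1 : ‖(p : K) * Qv * z‖ = 1 := norm_one_of_near na3 (H2.trans_lt ρ0)
  have N2 : ‖(p : K) * Qu‖ = 1 := norm_one_of_near nh4 (H3.trans_lt ρ0)
  have nz' : ∀ x : K, ‖x‖ = 1 → x ≠ 0 := by
    intro x hx h0
    rw [h0, norm_zero] at hx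
    exact zero_ne_one hx
  have hQv0 : Qv ≠ 0 := fun h0 => nz' _ N1 (by rw [h0]; ring)
  have hQu0 : Qu ≠ 0 := fun h0 => nz' _ N2 (by rw [h0]; ring)
  have ha0 : a ≠ 0 := nz' _ na
  have hh0 : h₄ ≠ 0 := nz' _ nh4
  have h13 : 1 + l₃ * z ≠ 0 := nz' _ (n1 l₃ u3.1)
  have h120 : l₁ - l₂ ≠ 0 := nz' _ h12
  -- the exponents
  have hP1 : (1 : ℝ) < p := by exact_mod_cast hp.one_lt
  have hP0 : (0 : ℝ) < p := by linarith
  have nQv : ‖Qv‖ * ‖z‖ = p := by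
    rw [norm_mul, norm_mul, npK, mul_assoc] at N1
    field_simp at N1
    linarith
  have nQu : ‖Qu‖ = p := by
    rw [norm_mul, npK] at N2
    field_simp at N2
    linarith
  have hAB : (p : ℝ) ^ A = (p : ℝ) ^ B * ‖z‖ ^ A := by
    have h1 : ‖Qv‖ ^ A = (p : ℝ) ^ B := by rw [← norm_pow, hQ, norm_pow, nQu]
    rw [← h1, ← mul_pow, nQv]
  have hlt : A < B := by
    by_contra hc
    have h1 : (p : ℝ) ^ B ≤ (p : ℝ) ^ A := pow_le_pow_right₀ hP1.le (by omega)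
    have h2 : ‖z‖ ^ A < 1 := pow_lt_one₀ nz0.le hz1 (by omega)
    have h3 : (p : ℝ) ^ B * ‖z‖ ^ A < (p : ℝ) ^ B := mul_lt_of_lt_one_right (by positivity) h2
    linarith
  obtain ⟨A', rfl⟩ : ∃ A', B = A + A' := ⟨B - A, by omega⟩
  have hA' : 1 ≤ A' := by omega
  have hAφ : A = p ^ k * (p - 1) * A' := by
    have h1 : ‖z‖ ^ A = (‖z‖ ^ (p ^ k * (p - 1))) ^ A' := by
      rw [hzp, inv_pow]
      rw [pow_add, mul_assoc] at hAB
      have h2 : (p : ℝ) ^ A * 1 = (p : ℝ) ^ A * ((p : ℝ) ^ A' * ‖z‖ ^ A) := by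
        rw [mul_one]; exact hAB
      have h3 := mul_left_cancel₀ (pow_ne_zero A hP0.ne') h2
      exact eq_inv_of_mul_eq_one_left (by rw [mul_comm]; exact h3.symm)
    rw [← pow_mul] at h1
    exact (pow_right_inj₀ nz0 hz1.ne).mp h1
  obtain ⟨φ, hφ⟩ : ∃ φ : ℕ, φ = p ^ k * (p - 1) := ⟨_, rfl⟩
  rw [← hφ] at hAφ
  -- logarithms
  have L0 : ∀ (x : K) (n : ℕ), x ≠ 0 → Log (x ^ n) = n * Log x := by
    intro x n hx
    have := G2 x n hx
    rwa [zpow_natCast, Int.cast_natCast] at this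
  have L1 : (φ : K) * Log Qv = ((φ : K) + 1) * Log Qu := by
    have h1 := congrArg Log hQ
    rw [L0 _ _ hQv0, L0 _ _ hQu0, hAφ] at h1
    have hA0 : (A' : K) ≠ 0 := by exact_mod_cast (by omega : A' ≠ 0)
    apply mul_left_cancel₀ hA0
    push_cast at h1
    linear_combination h1
  obtain ⟨e1, he1⟩ : ∃ e1 : K, e1 = (p : K) * Qv * z / (a * (1 + l₃ * z)) - 1 := ⟨_, rfl⟩
  obtain ⟨e2, he2⟩ : ∃ e2 : K, e2 = (p : K) * Qu / h₄ - 1 := ⟨_, rfl⟩
  have ne1 : ‖e1‖ ≤ ρ := by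
    have h1 : e1 = ((p : K) * Qv * z - a * (1 + l₃ * z)) / (a * (1 + l₃ * z)) := by
      rw [he1, sub_div, div_self (mul_ne_zero ha0 h13)]
    rw [h1, norm_div, na3, div_one]
    exact H2
  have ne2 : ‖e2‖ ≤ ρ := by
    have h1 : e2 = ((p : K) * Qu - h₄) / h₄ := by rw [he2, sub_div, div_self hh0]
    rw [h1, norm_div, nh4, div_one]
    exact H3
  have L2 : Log Qv = Log (1 + e1) + Log a + Log (1 + l₃ * z) - Log z := by
    have h1 : 1 + e1 = (p : K) * Qv * z / (a * (1 + l₃ * z)) := by rw [he1]; ring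
    rw [h1, G3 _ _ (mul_ne_zero (mul_ne_zero hpK hQv0) hz0) (mul_ne_zero ha0 h13),
      hLog.mul _ _ (mul_ne_zero hpK hQv0) hz0, hLog.mul _ _ hpK hQv0, hLog.pp,
      hLog.mul _ _ ha0 h13]
    ring
  have L3 : Log Qu = Log (1 + e2) + Log h₄ := by
    have h1 : 1 + e2 = (p : K) * Qu / h₄ := by rw [he2]; ring
    rw [h1, G3 _ _ (mul_ne_zero hpK hQu0) hh0, hLog.mul _ _ hpK hQu0, hLog.pp]
    ring
  obtain ⟨y, hy⟩ : ∃ y : K, y = ξ * (1 + d) - 1 := ⟨_, rfl⟩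
  obtain ⟨r, hr⟩ : ∃ r : K, r = (l₃ - l₂) / (l₁ - l₂) := ⟨_, rfl⟩
  have hr' : r * (l₁ - l₂) = l₃ - l₂ := by rw [hr, div_mul_cancel₀ _ h120]
  have y1 : y * (1 + l₂ * z) = (l₁ - l₂) * z := by
    rw [hy]; linear_combination -heq
  have y2 : (1 + r * y) * (1 + l₂ * z) = 1 + l₃ * z := by
    linear_combination r * y1 + z * hr'
  have y10 : y * (1 + l₂ * z) ≠ 0 := by rw [y1]; exact mul_ne_zero h120 hz0
  have y20 : (1 + r * y) * (1 + l₂ * z) ≠ 0 := by rw [y2]; exact h13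
  have L4 : Log y + Log (1 + l₂ * z) = Log (l₁ - l₂) + Log z := by
    rw [← hLog.mul _ _ (left_ne_zero_of_mul y10) (right_ne_zero_of_mul y10), y1,
      hLog.mul _ _ h120 hz0]
  have L5 : Log (1 + r * y) + Log (1 + l₂ * z) = Log (1 + l₃ * z) := by
    rw [← hLog.mul _ _ (left_ne_zero_of_mul y20) (right_ne_zero_of_mul y20), y2]
  have hΨ : (φ : K) * Log y + -(φ : K) * Log (1 + r * y) =
      (φ : K) * (Log (1 + e1) + Log a + Log (l₁ - l₂)) -
        ((φ : K) + 1) * (Log (1 + e2) + Log h₄) := by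
    rw [← L3, ← L1, L2]
    linear_combination (φ : K) * L4 - (φ : K) * L5
  -- the bound
  have U12 : Uu p (l₁ - l₂) := ⟨((hU p hp K hE).1 l₁ l₂ u1 u2).2.2.2, h12⟩
  have Mlt : max ρ (p : ℝ)⁻¹ < θ ^ 2 := max_lt ρ2 p2
  have b1 : ‖Log (1 + e1)‖ ≤ max ρ (p : ℝ)⁻¹ := by
    rw [G5 e1 (by rw [← hθ]; exact ne1.trans_lt ρ1)]
    exact ne1.trans (le_max_left _ _)
  have b2 : ‖Log (1 + e2)‖ ≤ max ρ (p : ℝ)⁻¹ := by
    rw [G5 e2 (by rw [← hθ]; exact ne2.trans_lt ρ1)]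
    exact ne2.trans (le_max_left _ _)
  have b3 : ‖Log a‖ ≤ max ρ (p : ℝ)⁻¹ := (G7 a ua).trans (le_max_right _ _)
  have b4 : ‖Log h₄‖ ≤ max ρ (p : ℝ)⁻¹ := (G7 h₄ uh4).trans (le_max_right _ _)
  have b5 : ‖Log (l₁ - l₂)‖ ≤ max ρ (p : ℝ)⁻¹ := (G7 _ U12).trans (le_max_right _ _)
  have bΨ : ‖(φ : K) * Log y + -(φ : K) * Log (1 + r * y)‖ ≤ max ρ (p : ℝ)⁻¹ := by
    rw [hΨ]
    refine sub_le' ?_ ?_
    · rw [norm_mul]
      exact (mul_le_of_le_one_left (norm_nonneg _) (norm_nat_le (p := p) φ)).trans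
        (add_le' (add_le' b1 b3) b5)
    · rw [norm_mul]
      have h1 : ‖(φ : K) + 1‖ ≤ 1 := by
        have := norm_nat_le (K := K) (p := p) (φ + 1)
        rwa [Nat.cast_add, Nat.cast_one] at this
      exact (mul_le_of_le_one_left (norm_nonneg _) h1).trans (add_le' b2 b4)
  -- GPS
  have hd3 : ‖d‖ < θ ^ 3 := hd.trans_lt (max_lt ρ3 T4)
  have hd1 : ‖d‖ < 1 := hd3.trans (pow_lt_one₀ T2.le T3 (by omega))
  have hdk : ‖d‖ ^ (p ^ k) < th p ^ 3 := by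
    rw [← hθ]
    refine lt_of_le_of_lt ?_ hd3
    exact pow_le_of_le_one (norm_nonneg d) hd1.le (pow_ne_zero _ hp.ne_zero)
  have nr : ‖r‖ ≤ 1 := by
    rw [hr, norm_div, h12, div_one]
    exact sub_le' u3.1 u2.1
  have nφ : ‖(φ : K)‖ = ((p : ℝ)⁻¹) ^ k := by
    rw [hφ, Nat.cast_mul, Nat.cast_pow, norm_mul, norm_pow, npK,
      norm_nat_eq_one hp hE (n := p - 1) (fun h0 => by
        have := Nat.le_of_dvd (by omega) h0
        omega), mul_one]
  have key := hGPS p hp (by omega) K hE Log hLog k ξ d r 0 (-(φ : ℤ)) 0 hξ hd1 hdk nr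
    (by rw [norm_zero]; exact zero_le_one) (by
      rcases H5 with h5 | h5 | h5
      · left
        refine ⟨Or.inr (Or.inr ⟨?_, Or.inl ?_⟩), Or.inl rfl⟩
        · rw [hr, h5, div_self h120]
        · rw [← hθ]; exact hd3
      · left
        refine ⟨Or.inr (Or.inl ?_), Or.inl rfl⟩
        rw [hr, h5, sub_self, zero_div]
      · right
        have hF : ‖r - r ^ p‖ = 1 := by
          refine frob_one hp hE nr fun m => ?_
          have h6 : r - (m : K) = (l₃ - l₂ - m * (l₁ - l₂)) / (l₁ - l₂) := by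
            rw [hr, eq_div_iff h120, sub_mul, div_mul_cancel₀ _ h120]
          rw [h6, norm_div, h5 m, h12, div_one]
        have e3 : ‖((-(φ : ℤ) : ℤ) : K)‖ = ((p : ℝ)⁻¹) ^ k := by
          rw [Int.cast_neg, Int.cast_natCast, norm_neg, nφ]
        rw [Int.cast_zero, zero_mul, add_zero, norm_mul, norm_pow, hF, one_pow, mul_one,
          norm_zero, e3, max_eq_left (by positivity)]
        exact ⟨rfl, le_rfl⟩)
  rw [← hφ, ← hy, Int.cast_zero, zero_mul, add_zero, Int.cast_neg, Int.cast_natCast] at key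
  rw [← hθ] at key
  exact absurd (key.trans bΨ) (not_le.mpr Mlt)

end Pool.Agent.ZPK.H51
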