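import Mathlib
import Pool.Agent.ZPK.StmtsR

/-! # Squad ZPK, row RSM: expansion of a small coordinate -/

set_option autoImplicit false

namespace Pool.Agent.ZPK.H51

open Pool.Agent.ZPT Pool.Agent.ZP3

theorem rsm_add {K : Type} [NormedField K] [IsUltrametricDist K] {x y : K} {C : ℝ}
    (hx : ‖x‖ ≤ C) (hy : ‖y‖ ≤ C) : ‖x + y‖ ≤ C :=
  (IsUltrametricDist.norm_add_le_max x y).trans (max_le hx hy)

theorem rsm (tat : TATStmt) : RsmStmt := by
  intro U hU p hp h5 K _ _ _ _ hext L e A g hcd t q ht0 ht1 hsm hat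
  obtain ⟨hu1, hT⟩ := tat U hU p hp h5 K hext
  obtain ⟨hX, hq⟩ := hT q hat.q0 hat.q1
  obtain ⟨u₁, hu⟩ : ∃ u₁ : K, u₁ = ((PowerSeries.coeff 1 U : ℚ) : K) := ⟨_, rfl⟩
  rw [← hu] at hu1 hq ⊢
  have hp0 : (0 : ℝ) < (p : ℝ) := by exact_mod_cast hp.pos
  have hp1 : (1 : ℝ) < (p : ℝ) := by exact_mod_cast hp.one_lt
  have hpi : (p : ℝ)⁻¹ < 1 := inv_lt_one_of_one_lt₀ hp1
  have hpi0 : 0 < (p : ℝ)⁻¹ := inv_pos.2 hp0
  have hpn : ‖(p : K)‖ = (p : ℝ)⁻¹ := by
    have h := hext (p : ℚ)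
    rw [padicNorm.padicNorm_p hp.one_lt] at h
    push_cast at h
    exact h
  have hpK : (p : K) ≠ 0 := by
    rw [← norm_pos_iff, hpn]
    exact hpi0
  have htK : t ≠ 0 := norm_pos_iff.1 ht0
  have hte : (t ^ e : K) ≠ 0 := pow_ne_zero _ htK
  obtain ⟨S, hS⟩ : ∃ S : K, S = ∑' n : ℕ, A n * t ^ n := ⟨_, rfl⟩
  have hterm : ∀ n, ‖A n * t ^ n‖ ≤ ‖t‖ ^ n := by
    intro n
    rw [norm_mul, norm_pow]
    exact mul_le_of_le_one_left (by positivity) (hcd.An1 n)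
  have hsum : Summable (fun n : ℕ => A n * t ^ n) :=
    Summable.of_norm_bounded (summable_geometric_of_lt_one (norm_nonneg _) ht1) hterm
  have hS1 : ‖S‖ ≤ 1 := by
    rw [hS]
    apply IsUltrametricDist.norm_tsum_le_of_forall_le
    intro n
    exact (hterm n).trans (pow_le_one₀ (norm_nonneg _) ht1.le)
  have hS0 : ‖S - A 0‖ ≤ ‖t‖ := by
    rw [hS, hsum.tsum_eq_zero_add, pow_zero, mul_one, add_sub_cancel_left]
    apply IsUltrametricDist.norm_tsum_le_of_forall_le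
    intro n
    refine (hterm (n + 1)).trans ?_
    rw [pow_succ]
    exact mul_le_of_le_one_left (norm_nonneg _) (pow_le_one₀ (norm_nonneg _) ht1.le)
  obtain ⟨w, hw⟩ : ∃ w : K, w = (p : K) / t ^ e := ⟨_, rfl⟩
  have hw1 : ‖w‖ < 1 := by
    rw [hw, norm_div, norm_pow, hpn, div_lt_one (by positivity)]
    exact hsm
  have hpX : (p : K) * jv U q = g + w * S := by
    rw [hat.eq, hw, ← hS]
    field_simp
    ring
  have hwS : ‖w * S‖ < 1 := by
    rw [norm_mul]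
    exact lt_of_le_of_lt (mul_le_of_le_one_right (norm_nonneg _) hS1) hw1
  have hnX : ‖(p : K) * jv U q‖ = 1 := by
    rw [hpX, IsUltrametricDist.norm_add_eq_max_of_norm_ne_norm, hcd.g1]
    · exact max_eq_left hwS.le
    · rw [hcd.g1]
      exact hwS.ne'
  have hqn : ‖q‖ = (p : ℝ)⁻¹ := by
    rw [norm_mul, hpn, hX, ← mul_inv, inv_eq_one] at hnX
    exact eq_inv_of_mul_eq_one_right hnX
  have hE : ‖(p : K) * (q⁻¹ - (jv U q - u₁))‖ ≤ (p : ℝ)⁻¹ * (p : ℝ)⁻¹ := by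
    rw [norm_mul, hpn]
    refine mul_le_mul_of_nonneg_left ?_ hpi0.le
    rw [← hqn]
    exact hq
  have hpp : (p : ℝ)⁻¹ * (p : ℝ)⁻¹ ≤ (p : ℝ)⁻¹ := mul_le_of_le_one_left hpi0.le hpi.le
  refine ⟨hqn, ?_, ?_⟩
  · rw [← hw]
    have hid : (p : K) * q⁻¹ - (g + A 0 * w) =
        (p : K) * (q⁻¹ - (jv U q - u₁)) + (-((p : K) * u₁) + w * (S - A 0)) := by
      have h1 : (p : K) * (q⁻¹ - (jv U q - u₁)) = p * q⁻¹ - (g + w * S) + p * u₁ := by
        rw [← hpX]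
        ring
      rw [h1]
      ring
    rw [hid]
    refine rsm_add ?_ (rsm_add ?_ ?_)
    · exact (hE.trans hpp).trans (le_max_left _ _)
    · refine le_trans ?_ (le_max_left _ _)
      rw [norm_neg, norm_mul, hpn]
      exact mul_le_of_le_one_right hpi0.le hu1
    · refine le_trans ?_ (le_max_right _ _)
      rw [norm_mul]
      exact mul_le_mul_of_nonneg_left hS0 (norm_nonneg _)
  · intro he
    have hwp : w = (p : K) := by rw [hw, he, pow_zero, div_one]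
    have hid : (p : K) * q⁻¹ - (g + p * (A 0 - u₁)) =
        (p : K) * (q⁻¹ - (jv U q - u₁)) + p * (S - A 0) := by
      have h1 : (p : K) * (q⁻¹ - (jv U q - u₁)) = p * q⁻¹ - (g + p * S) + p * u₁ := by
        rw [← hwp] at hpX ⊢
        rw [← hpX]
        ring
      rw [h1]
      ring
    rw [hid]
    refine rsm_add ?_ ?_
    · refine hE.trans (mul_le_mul_of_nonneg_right (le_max_right _ _) hpi0.le)
    · rw [norm_mul, hpn, mul_comm]
      exact mul_le_mul_of_nonneg_right (hS0.trans (le_max_left _ _)) hpi0.le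

end Pool.Agent.ZPK.H51
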